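import Pool.Agent.W483.FB.Stm

set_option autoImplicit false

open Finset Matrix

namespace Pool.Agent.W632.FB

open Pool.Agent.W483.FB

/-- flip the bits of `p` -/
def fl {N : ℕ} (p x : Fin N → Bool) : Fin N → Bool := fun k => xor (x k) (p k)

theorem fl_fl {N : ℕ} (p x : Fin N → Bool) : fl p (fl p x) = x := by
  funext k
  unfold fl
  rw [Bool.xor_assoc, Bool.xor_self, Bool.xor_false]

theorem fl_comm {N : ℕ} (p q x : Fin N → Bool) : fl q (fl p x) = fl p (fl q x) := by
  funext k
  unfold fl
  rw [Bool.xor_assoc, Bool.xor_assoc, Bool.xor_comm (p k)]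

theorem sg_xor (a b : Bool) : sg (xor a b) = sg a * sg b := by
  cases a <;> cases b <;> simp [sg]

theorem sg_mul_self (a : Bool) : sg a * sg a = 1 := by
  cases a <;> simp [sg]

/-- signed permutation matrices -/
def T {N : ℕ} (p : Fin N → Bool) (i : Fin N) : Mat N :=
  Matrix.of fun x y => if y = fl p x then sg (x i) else 0

/-- the product of two of them, up to sign -/
def W {N : ℕ} (p q : Fin N → Bool) (i j : Fin N) : Mat N :=
  Matrix.of fun x z => if z = fl q (fl p x) then sg (x i) * sg (x j) else 0

theorem T_mul {N : ℕ} (p q : Fin N → Bool) (i j : Fin N) :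
    T p i * T q j = sg (p j) • W p q i j := by
  ext x z
  rw [Matrix.mul_apply, Finset.sum_eq_single (fl p x)]
  · simp only [T, W, Matrix.of_apply, Matrix.smul_apply, smul_eq_mul, if_true]
    by_cases h : z = fl q (fl p x)
    · simp only [h, if_true]
      have : sg (fl p x j) = sg (x j) * sg (p j) := sg_xor _ _
      rw [this]; ring
    · simp only [h, if_false, mul_zero]
  · intro y _ hy
    simp only [T, Matrix.of_apply, if_neg hy, zero_mul]
  · intro h
    exact absurd (Finset.mem_univ _) h

theorem W_comm {N : ℕ} (p q : Fin N → Bool) (i j : Fin N) : W p q i j = W q p j i := by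
  ext x z
  simp only [W, Matrix.of_apply]
  rw [fl_comm p q x, mul_comm (sg (x i))]

theorem W_self {N : ℕ} (p : Fin N → Bool) (i : Fin N) : W p p i i = 1 := by
  ext x z
  simp only [W, Matrix.of_apply, fl_fl, sg_mul_self, Matrix.one_apply]
  by_cases h : z = x
  · simp [h]
  · rw [if_neg h, if_neg (fun h' => h h'.symm)]

theorem T_tr {N : ℕ} (p : Fin N → Bool) (i : Fin N) : (T p i)ᵀ = sg (p i) • T p i := by
  ext x y
  simp only [T, Matrix.transpose_apply, Matrix.of_apply, Matrix.smul_apply, smul_eq_mul]
  by_cases h : x = fl p y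
  · have h2 : y = fl p x := by rw [h, fl_fl]
    rw [if_pos h, if_pos h2]
    have : x i = xor (y i) (p i) := congrFun h i
    rw [this, sg_xor, mul_comm (sg (y i)), ← mul_assoc, sg_mul_self, one_mul]
  · have h2 : ¬ y = fl p x := by
      intro h2
      apply h
      rw [h2, fl_fl]
    rw [if_neg h, if_neg h2, mul_zero]

theorem anti {N : ℕ} (p q : Fin N → Bool) (i j : Fin N) (h : sg (p j) + sg (q i) = 0) :
    T p i * T q j + T q j * T p i = 0 := by
  rw [T_mul, T_mul, W_comm q p j i, ← add_smul, h, zero_smul]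

/-- the generators -/
def cl (N : ℕ) : Cliff N where
  e i := T (fun k => decide (k < i)) i
  f i := T (fun k => decide (k ≤ i)) i
  e_tr i := by
    rw [T_tr]
    simp [sg]
  f_tr i := by
    rw [T_tr]
    simp [sg]
  e_sq i := by
    rw [T_mul, W_self]
    simp [sg]
  f_sq i := by
    rw [T_mul, W_self]
    simp [sg]
  ee i j hij := by
    apply anti
    rcases lt_or_gt_of_ne hij with h | h
    · simp [sg, h, h.le, not_lt.2 h.le]
    · simp [sg, h, h.le, not_lt.2 h.le]
  ff i j hij := by
    apply anti
    rcases lt_or_gt_of_ne hij with h | h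
    · simp [sg, h.le, not_le.2 h]
    · simp [sg, h.le, not_le.2 h]
  ef i j := by
    apply anti
    rcases lt_or_ge j i with h | h
    · simp [sg, h, not_le.2 h]
    · simp [sg, h, not_lt.2 h]

theorem t_cliff : S_cliff := by
  intro n
  refine ⟨cl (n + 1), ?_⟩
  have h0 : (cl (n + 1)).e 0 = T (fun k => decide (k < 0)) 0 := rfl
  rw [h0]
  ext x y
  have hfl : fl (fun k : Fin (n + 1) => decide (k < 0)) x = x := by
    funext k
    simp [fl]
  simp only [T, Matrix.of_apply, hfl, Matrix.diagonal_apply]
  by_cases h : y = x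
  · simp [h]
  · rw [if_neg h, if_neg (fun h' => h h'.symm)]

end Pool.Agent.W632.FB
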